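import Pool.Agent.Q32.LR2.Stm

/-!
# Project LR2: the extension lemma EXT
-/

set_option autoImplicit false

namespace Q209.LR2

open Q32.LR2 Pool.Agent.H97R3.VR Pool.Agent.TH97.VR

theorem no_sq {C : Type} {T : SimpleGraph C} (hT : IsTr T) {x y w z : C} (h : Square T x y w z) :
    False := by
  have h1 : T.dist x w = 2 := dist_two hT.med h.xy.symm h.yw h.ne
  have h2 : T.dist y z = 2 := dist_two hT.med h.xy h.zx.symm h.ne'
  have h3 : Pool.Agent.H97R3.VR.Btw T x w y := by
    unfold Pool.Agent.H97R3.VR.Btw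
    rw [adj_one h.xy, adj_one h.yw, h1]
  rcases hT.tri x w y z h3 with h4 | h4
  · unfold Pool.Agent.H97R3.VR.Btw at h4
    rw [adj_one h.xy, h2, adj_one h.zx.symm] at h4
    omega
  · unfold Pool.Agent.H97R3.VR.Btw at h4
    rw [SimpleGraph.dist_comm, h2, adj_one h.yw, adj_one h.wz.symm] at h4
    omega

theorem pot {C M : Type} [Group M] {T : SimpleGraph C} (hT : IsTr T) (x0 : C) (c : C → C → M)
    (hinv : ∀ x y, T.Adj x y → c y x * c x y = 1) :
    ∃ F : C → M, F x0 = 1 ∧ ∀ x y, T.Adj x y → F y = c x y * F x :=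
  exists_pot hT.med x0 c hinv (fun _ _ _ _ h => (no_sq hT h).elim)

theorem homOn_inv {Γ M : Type} [Group Γ] [Group M] {L : Subgroup Γ} {f : Γ → M}
    (hf : HomOn L f) : f 1 = 1 := by
  have h := hf 1 L.one_mem 1 L.one_mem
  rw [mul_one] at h
  exact mul_left_cancel (h.symm.trans (mul_one _).symm)

theorem ext : S_EXT := by
  classical
  intro hFIX hNB Γ Q M C _ _ _ _ T hT hact π s x0 L hL hker f hf hadj
  -- the sections
  have hr0 : ∀ x : C, ∃ k : Γ, π k = 1 ∧ ((∃ g : Γ, g • x0 = x) → k • x0 = x) ∧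
      (x = x0 → k = 1) := by
    intro x
    by_cases hx : x = x0
    · exact ⟨1, map_one π, fun _ => by rw [one_smul, hx], fun _ => rfl⟩
    · by_cases h : ∃ g : Γ, g • x0 = x
      · obtain ⟨g, hg⟩ := h
        obtain ⟨k, hk, l, hl, rfl⟩ := hker g
        refine ⟨k, hk, fun _ => ?_, fun h => absurd h hx⟩
        rw [← hg, mul_smul, (hL l).1 hl]
      · exact ⟨1, map_one π, fun h' => absurd h' h, fun _ => rfl⟩
  choose r hrk hrx hr1 using hr0
  let O : Set C := {x | ∃ g : Γ, g • x0 = x}
  have hO : ∀ (g : Γ) (x : C), g • x ∈ O ↔ x ∈ O := by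
    intro g x
    constructor
    · rintro ⟨g', hg'⟩
      refine ⟨g⁻¹ * g', ?_⟩
      rw [mul_smul, hg', inv_smul_smul]
    · rintro ⟨g', hg'⟩
      exact ⟨g * g', by rw [mul_smul, hg']⟩
  have hO0 : x0 ∈ O := ⟨1, one_smul _ _⟩
  have hlL : ∀ (g : Γ) (x : C), x ∈ O → (r (g • x))⁻¹ * g * r x ∈ L := by
    intro g x hx
    rw [hL, mul_smul, mul_smul, hrx x hx, inv_smul_eq_iff]
    exact (hrx (g • x) ((hO g x).2 hx)).symm
  have hlπ : ∀ (g : Γ) (x : C), π ((r (g • x))⁻¹ * g * r x) = π g := by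
    intro g x
    rw [map_mul, map_mul, map_inv, hrk, hrk, inv_one, one_mul, mul_one]
  let a : Γ → C → M := fun g x => if x ∈ O then f ((r (g • x))⁻¹ * g * r x) else s (π g)
  have haO : ∀ g x, x ∈ O → a g x = f ((r (g • x))⁻¹ * g * r x) := fun g x hx => if_pos hx
  have haN : ∀ g x, x ∉ O → a g x = s (π g) := fun g x hx => if_neg hx
  have hcoc : ∀ g g' x, a (g * g') x = a g (g' • x) * a g' x := by
    intro g g' x
    by_cases hx : x ∈ O
    · have hx' := (hO g' x).2 hx
      rw [haO _ _ hx, haO _ _ hx', haO _ _ hx]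
      rw [← hf _ (hlL g (g' • x) hx') _ (hlL g' x hx)]
      congr 1
      rw [← mul_smul]
      group
    · have hx' : g' • x ∉ O := fun h => hx ((hO g' x).1 h)
      rw [haN _ _ hx, haN _ _ hx', haN _ _ hx, map_mul, map_mul]
  obtain ⟨m, hm⟩ := hNB Γ Q M C π s f L {y | T.Adj x0 y} hf (by
    intro l hl y hy
    have h := hact l x0 y hy
    rw [(hL l).1 hl] at h
    exact h) hadj
  let n : C → C → M := fun x y => if x ∈ O then m ((r x)⁻¹ • y) else 1
  have hnO : ∀ x y, x ∈ O → n x y = m ((r x)⁻¹ • y) := fun x y hx => if_pos hx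
  have hnN : ∀ x y, x ∉ O → n x y = 1 := fun x y hx => if_neg hx
  have hn : ∀ g x y, T.Adj x y → n (g • x) (g • y) = s (π g) * n x y * (a g x)⁻¹ := by
    intro g x y hxy
    by_cases hx : x ∈ O
    · have hx' := (hO g x).2 hx
      rw [hnO _ _ hx, hnO _ _ hx', haO _ _ hx]
      have h1 : (r (g • x))⁻¹ • (g • y) = ((r (g • x))⁻¹ * g * r x) • ((r x)⁻¹ • y) := by
        rw [← mul_smul, ← mul_smul]
        congr 1
        group
      have h2 : T.Adj x0 ((r x)⁻¹ • y) := by
        have h3 := hact (r x)⁻¹ x y hxy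
        have h4 : (r x)⁻¹ • x = x0 := by
          rw [inv_smul_eq_iff]
          exact (hrx x hx).symm
        rw [h4] at h3
        exact h3
      rw [h1, hm _ (hlL g x hx) _ h2, hlπ]
    · have hx' : g • x ∉ O := fun h => hx ((hO g x).1 h)
      rw [hnN _ _ hx, hnN _ _ hx', haN _ _ hx, mul_one, mul_inv_cancel]
  obtain ⟨F, hF0, hF⟩ := pot hT x0 (fun x y => (n y x)⁻¹ * n x y) (by
    intro x y _
    group)
  have hc : ∀ g x y, T.Adj x y → a g y * ((n y x)⁻¹ * n x y) =
      ((n (g • y) (g • x))⁻¹ * n (g • x) (g • y)) * a g x := by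
    intro g x y hxy
    rw [hn g x y hxy, hn g y x hxy.symm]
    group
  have hkey : ∀ g x, a g x * F x = F (g • x) * ((F (g • x0))⁻¹ * a g x0) := by
    intro g
    refine conn_ind hT.med.conn _ x0 ?_ ?_
    · rw [hF0]
      group
    · intro x y hxy ih
      rw [hF x y hxy, ← mul_assoc, hc g x y hxy, mul_assoc, ih, hF _ _ (hact g x y hxy)]
      group
  have hker0 : ∀ g x, (F (g • x0))⁻¹ * a g x0 = (F (g • x))⁻¹ * a g x * F x := by
    intro g x
    rw [mul_assoc, hkey g x]
    group
  let φ : Γ →* M := MonoidHom.mk' (fun g => (F (g • x0))⁻¹ * a g x0) (by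
    intro g g'
    have h1 := hker0 g (g' • x0)
    rw [h1, hcoc, mul_smul]
    group)
  have hφ : ∀ g x, φ g = (F (g • x))⁻¹ * a g x * F x := hker0
  refine ⟨φ, ?_, ?_⟩
  · intro l hl
    have h1 : l • x0 = x0 := (hL l).1 hl
    rw [hφ l x0, h1, hF0, haO _ _ hO0, h1, hr1 x0 rfl]
    group
  · intro hPr E hE _
    obtain ⟨x, y, hxy, hfix⟩ := hFIX C E T hT (fun g x y h => hact (g : Γ) x y h)
    rcases hxy with hxy | hxy
    · have hfx : ∀ g ∈ E, g • x = x := by
        intro g hg
        rcases hfix ⟨g, hg⟩ with h | h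
        · exact h.1
        · exact h.1.trans hxy.symm
      by_cases hx : x ∈ O
      · let E' : Subgroup Γ := E.map (MulAut.conj (r x)⁻¹).toMonoidHom
        have hE' : Finite E' := by
          have : (E' : Set Γ).Finite := by
            have h1 : (E' : Set Γ) = (MulAut.conj (r x)⁻¹).toMonoidHom '' (E : Set Γ) := rfl
            rw [h1]
            exact (Set.toFinite (E : Set Γ)).image _
          exact this.to_subtype
        have hmem : ∀ g ∈ E, (r x)⁻¹ * g * r x ∈ E' := by
          intro g hg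
          refine ⟨g, hg, ?_⟩
          simp
        have hle : E' ≤ L := by
          rintro _ ⟨g, hg, rfl⟩
          have h1 := hlL g x hx
          rw [hfx g hg] at h1
          simpa using h1
        obtain ⟨n', hn'⟩ := hPr E' hE' hle
        refine ⟨n' * F x, fun g hg => ?_⟩
        have h2 := hlπ g x
        rw [hfx g hg] at h2
        rw [hφ g x, haO _ _ hx, hfx g hg, hn' _ (hmem g hg), h2]
        group
      · refine ⟨F x, fun g hg => ?_⟩
        rw [hφ g x, haN _ _ hx, hfx g hg]
    · have hN : n x y * F x = n y x * F y := by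
        rw [hF x y hxy]
        group
      refine ⟨n x y * F x, fun g hg => ?_⟩
      rcases hfix ⟨g, hg⟩ with ⟨h1, h2⟩ | ⟨h1, h2⟩
      · have h1' : g • x = x := h1
        have h2' : g • y = y := h2
        have h3 := hn g x y hxy
        rw [h1', h2'] at h3
        have h4 : a g x = (n x y)⁻¹ * s (π g) * n x y := by
          rw [eq_mul_inv_iff_mul_eq] at h3
          rw [mul_assoc, ← h3]
          group
        rw [hφ g x, h1', h4]
        group
      · have h1' : g • x = y := h1
        have h2' : g • y = x := h2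
        have h3 := hn g x y hxy
        rw [h1', h2'] at h3
        have h4 : a g x = (n y x)⁻¹ * s (π g) * n x y := by
          rw [eq_mul_inv_iff_mul_eq] at h3
          rw [mul_assoc, ← h3]
          group
        rw [hφ g x, h1', h4]
        have h5 : (n x y * F x)⁻¹ = (F y)⁻¹ * (n y x)⁻¹ := by
          rw [hN, mul_inv_rev]
        rw [h5]
        group

end Q209.LR2
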