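import Pool.Agent.Q209.LR2.EXT

/-!
# Project LR2: the target TGT
-/

set_option autoImplicit false

namespace Q209.LR2

open Q32.LR2 Pool.Agent.H97R3.VR Pool.Agent.TH97.VR

section tgt

variable {Γ Q C : Type} [Group Γ] [Group Q] [MulAction Γ C]

/-- pairs in the same orbit of the kernel -/
def RS (C : Type) [MulAction Γ C] (π : Γ →* Q) : Setoid (C × C) where
  r p q := ∃ k : Γ, π k = 1 ∧ k • p.1 = q.1 ∧ k • p.2 = q.2
  iseqv := by
    refine ⟨fun p => ⟨1, map_one π, one_smul _ _, one_smul _ _⟩, ?_, ?_⟩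
    · rintro p q ⟨k, h1, h2, h3⟩
      refine ⟨k⁻¹, by rw [map_inv, h1, inv_one], ?_, ?_⟩
      · rw [← h2, inv_smul_smul]
      · rw [← h3, inv_smul_smul]
    · rintro p q r ⟨k, h1, h2, h3⟩ ⟨k', h1', h2', h3'⟩
      refine ⟨k' * k, by rw [map_mul, h1, h1', one_mul], ?_, ?_⟩
      · rw [mul_smul, h2, h2']
      · rw [mul_smul, h3, h3']

/-- the letters -/
def YY (C : Type) [MulAction Γ C] (π : Γ →* Q) : Type := Quotient (RS C π)

/-- the letter of a pair -/
def ly (π : Γ →* Q) (x y : C) : YY C π := Quotient.mk (RS C π) (x, y)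

theorem ly_eq {π : Γ →* Q} {x y x' y' : C} :
    ly π x y = ly π x' y' ↔ ∃ k : Γ, π k = 1 ∧ k • x = x' ∧ k • y = y' := by
  unfold ly
  exact Quotient.eq (r := RS C π)

/-- the map of the letters given by `g` -/
def mvY (π : Γ →* Q) (g : Γ) : YY C π → YY C π :=
  Quotient.lift (fun p : C × C => ly π (g • p.1) (g • p.2)) (by
    rintro p q ⟨k, h1, h2, h3⟩
    refine ly_eq.2 ⟨g * k * g⁻¹, ?_, ?_, ?_⟩
    · rw [map_mul, map_mul, h1, mul_one, map_inv, mul_inv_cancel]
    · rw [← h2, mul_smul, mul_smul, inv_smul_smul]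
    · rw [← h3, mul_smul, mul_smul, inv_smul_smul])

theorem mvY_ly (π : Γ →* Q) (g : Γ) (x y : C) : mvY π g (ly π x y) = ly π (g • x) (g • y) := rfl

theorem ly_ind {π : Γ →* Q} {p : YY C π → Prop} (h : ∀ x y : C, p (ly π x y)) (y : YY C π) : p y :=
  Quotient.ind (fun q => h q.1 q.2) y

theorem mvY_mul (π : Γ →* Q) (g g' : Γ) (y : YY C π) :
    mvY π (g * g') y = mvY π g (mvY π g' y) := by
  refine ly_ind (p := fun y => mvY π (g * g') y = mvY π g (mvY π g' y)) (fun x z => ?_) y
  show mvY π (g * g') (ly π x z) = mvY π g (mvY π g' (ly π x z))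
  rw [mvY_ly, mvY_ly, mvY_ly, mul_smul, mul_smul]

theorem mvY_one (π : Γ →* Q) (y : YY C π) : mvY π 1 y = y := by
  refine ly_ind (p := fun y => mvY π 1 y = y) (fun x z => ?_) y
  show mvY π 1 (ly π x z) = ly π x z
  rw [mvY_ly, one_smul, one_smul]

theorem mvY_ker (π : Γ →* Q) {k : Γ} (hk : π k = 1) (y : YY C π) : mvY π k y = y := by
  refine ly_ind (p := fun y => mvY π k y = y) (fun x z => ?_) y
  show mvY π k (ly π x z) = ly π x z
  rw [mvY_ly]
  exact (ly_eq.2 ⟨k, hk, rfl, rfl⟩).symm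

/-- the permutation of the letters given by `g` -/
def pY (C : Type) [MulAction Γ C] (π : Γ →* Q) : Γ →* Equiv.Perm (YY C π) where
  toFun g := ⟨mvY π g, mvY π g⁻¹, fun y => by rw [← mvY_mul, inv_mul_cancel, mvY_one],
    fun y => by rw [← mvY_mul, mul_inv_cancel, mvY_one]⟩
  map_one' := Equiv.ext fun y => mvY_one π y
  map_mul' g g' := Equiv.ext fun y => mvY_mul π g g' y

theorem pY_apply (π : Γ →* Q) (g : Γ) (y : YY C π) : pY C π g y = mvY π g y := rfl

theorem pY_congr (π : Γ →* Q) {g g' : Γ} (h : π g = π g') : pY C π g = pY C π g' := by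
  have h1 : pY C π (g⁻¹ * g') = 1 := Equiv.ext fun y => mvY_ker π (by
    rw [map_mul, map_inv, h, inv_mul_cancel]) y
  rw [map_mul, map_inv, inv_mul_eq_one] at h1
  exact h1

/-- the action of `Q` on the letters -/
noncomputable def tY (C : Type) [MulAction Γ C] (π : Γ →* Q) (hπ : Function.Surjective π) :
    Q →* Equiv.Perm (YY C π) :=
  MonoidHom.mk' (fun q => pY C π (Function.surjInv hπ q)) (by
    intro q q'
    rw [← map_mul]
    refine pY_congr π ?_
    rw [map_mul, Function.surjInv_eq hπ, Function.surjInv_eq hπ, Function.surjInv_eq hπ])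

theorem tY_apply (π : Γ →* Q) (hπ : Function.Surjective π) (g : Γ) (x y : C) :
    tY C π hπ (π g) (ly π x y) = ly π (g • x) (g • y) := by
  have h1 : tY C π hπ (π g) = pY C π g := pY_congr π (Function.surjInv_eq hπ _)
  rw [h1]
  rfl

/-- the letter as a word -/
def bb (π : Γ →* Q) (x y : C) : FreeGroup (YY C π) := FreeGroup.of (ly π x y)

theorem perm_bb (π : Γ →* Q) (hπ : Function.Surjective π) (g : Γ) (x y : C) :
    ((permAut (YY C π)).comp (tY C π hπ)) (π g) (bb π x y) = bb π (g • x) (g • y) := by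
  have h1 : ((permAut (YY C π)).comp (tY C π hπ)) (π g) (bb π x y) =
      FreeGroup.of (tY C π hπ (π g) (ly π x y)) := rfl
  rw [h1, tY_apply]
  rfl

theorem word {T : SimpleGraph C} (hT : IsTr T)
    (π : Γ →* Q) (hfree : ∀ a ∈ π.ker, ∀ x : C, a • x = x → a = 1)
    (h2 : ∀ a ∈ π.ker, a * a = 1 → a = 1) (x0 : C) (F : C → FreeGroup (YY C π)) (hF0 : F x0 = 1)
    (hF : ∀ x y, T.Adj x y → F y = bb π y x * (bb π x y)⁻¹ * F x) (n : ℕ) :
    ∀ x, T.dist x0 x = n → ∃ w : List (YY C π × Bool), F x = FreeGroup.mk w ∧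
      FreeGroup.IsReduced w ∧ w.length = 2 * n ∧
      ∀ a ∈ w.head?, ∃ y, T.Adj y x ∧ T.dist x0 y + 1 = n ∧ a = (ly π x y, true) := by
  induction n with
  | zero =>
    intro x hx
    have h3 : x0 = x := hT.med.conn.dist_eq_zero_iff.1 hx
    refine ⟨[], ?_, FreeGroup.IsReduced.nil, rfl, fun a ha => by simp at ha⟩
    rw [← h3, hF0]
    rfl
  | succ n ih =>
    intro x hx
    obtain ⟨y, hyx, hy⟩ := exists_pred hT.med.conn hx
    obtain ⟨w, hw1, hw2, hw3, hw4⟩ := ih y hy
    refine ⟨(ly π x y, true) :: (ly π y x, false) :: w, ?_, ?_, ?_, ?_⟩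
    · rw [hF y x hyx, hw1]
      unfold bb FreeGroup.of
      rw [FreeGroup.inv_mk, FreeGroup.mul_mk, FreeGroup.mul_mk]
      rfl
    · rw [FreeGroup.isReduced_cons_cons]
      refine ⟨?_, ?_⟩
      · intro h
        exfalso
        obtain ⟨k, hk, hk1, hk2⟩ := ly_eq.1 h
        have h3 : k * k = 1 := hfree (k * k) (by
          rw [MonoidHom.mem_ker, map_mul, hk, one_mul]) x (by rw [mul_smul, hk1, hk2])
        have h4 : k = 1 := h2 k hk h3
        rw [h4, one_smul] at hk1
        exact hyx.ne hk1.symm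
      · cases w with
        | nil => exact FreeGroup.IsReduced.singleton
        | cons a w =>
          rw [FreeGroup.isReduced_cons_cons]
          refine ⟨?_, hw2⟩
          intro h
          exfalso
          obtain ⟨z, hz1, hz2, hz3⟩ := hw4 a rfl
          rw [hz3] at h
          obtain ⟨k, hk, hk1, hk2⟩ := ly_eq.1 h
          have h4 : k = 1 := hfree k hk y hk1
          rw [h4, one_smul] at hk2
          rw [hk2] at hx
          omega
    · simp only [List.length_cons, hw3]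
      omega
    · intro a ha
      simp only [List.head?_cons, Option.mem_def, Option.some.injEq] at ha
      exact ⟨y, hyx, by omega, ha.symm⟩

theorem inj {T : SimpleGraph C} (hT : IsTr T)
    (π : Γ →* Q) (hfree : ∀ a ∈ π.ker, ∀ x : C, a • x = x → a = 1)
    (h2 : ∀ a ∈ π.ker, a * a = 1 → a = 1) (x0 : C) (F : C → FreeGroup (YY C π)) (hF0 : F x0 = 1)
    (hF : ∀ x y, T.Adj x y → F y = bb π y x * (bb π x y)⁻¹ * F x) (x : C) (hx : F x = 1) :
    x = x0 := by
  classical
  obtain ⟨w, hw1, hw2, hw3, -⟩ := word hT π hfree h2 x0 F hF0 hF _ x rfl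
  have h3 : w = [] := by
    have h4 : FreeGroup.reduce w = w := hw2.reduce_eq
    have h5 : (FreeGroup.mk w).toWord = FreeGroup.reduce w := FreeGroup.toWord_mk
    rw [← hw1, hx, FreeGroup.toWord_one, h4] at h5
    exact h5.symm
  rw [h3] at hw3
  simp only [List.length_nil] at hw3
  exact (hT.med.conn.dist_eq_zero_iff.1 (by omega)).symm

theorem tgt : S_TGT := by
  intro hFIX Γ Q C _ _ _ T hT hact π hπ hfree h2
  obtain ⟨x0⟩ := hT.med.conn.nonempty
  obtain ⟨F, hF0, hF⟩ := pot hT x0 (fun x y => bb π y x * (bb π x y)⁻¹) (by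
    intro x y _
    group)
  refine ⟨YY C π, tY C π hπ, ?_⟩
  set A := (permAut (YY C π)).comp (tY C π hπ) with hA
  have hAb : ∀ g x y, A (π g) (bb π x y) = bb π (g • x) (g • y) := fun g x y => perm_bb π hπ g x y
  have hkey : ∀ g x, F (g • x) = A (π g) (F x) * F (g • x0) := by
    intro g
    refine conn_ind hT.med.conn _ x0 ?_ ?_
    · rw [hF0, map_one, one_mul]
    · intro x y hxy ih
      rw [hF _ _ (hact g x y hxy), ih, hF x y hxy, map_mul, map_mul, map_inv, hAb, hAb]
      group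
  have hkey' : ∀ g x, (F (g • x0))⁻¹ = (F (g • x))⁻¹ * A (π g) (F x) := by
    intro g x
    rw [hkey g x]
    group
  let φ : Γ →* FreeGroup (YY C π) ⋊[A] Q := MonoidHom.mk' (fun g => ⟨(F (g • x0))⁻¹, π g⟩) (by
    intro g g'
    refine SemidirectProduct.ext ?_ ?_
    · show (F ((g * g') • x0))⁻¹ = (F (g • x0))⁻¹ * A (π g) (F (g' • x0))⁻¹
      rw [mul_smul, hkey g (g' • x0), map_inv]
      group
    · exact map_mul π g g')
  have hφ : ∀ g x, φ g = ⟨(F (g • x))⁻¹ * A (π g) (F x), π g⟩ := fun g x => by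
    rw [← hkey' g x]
    rfl
  have hconj : ∀ (N : FreeGroup (YY C π)) (q : Q),
      ((SemidirectProduct.inl N)⁻¹ * SemidirectProduct.inr q * SemidirectProduct.inl N :
        FreeGroup (YY C π) ⋊[A] Q) = ⟨N⁻¹ * A q N, q⟩ := by
    intro N q
    refine SemidirectProduct.ext ?_ ?_
    · simp
    · simp
  refine ⟨φ, ?_, ?_⟩
  · rw [injective_iff_map_eq_one]
    intro g hg
    have h3 : (φ g).left = 1 := by rw [hg]; rfl
    have h4 : (φ g).right = 1 := by rw [hg]; rfl
    have h5 : (F (g • x0))⁻¹ = 1 := h3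
    have h6 : π g = 1 := h4
    exact hfree g h6 x0 (inj hT π hfree h2 x0 F hF0 hF _ (inv_eq_one.1 h5))
  · intro E hE _
    obtain ⟨x, y, hxy, hfix⟩ := hFIX C E T hT (fun g x y h => hact (g : Γ) x y h)
    rcases hxy with hxy | hxy
    · refine ⟨SemidirectProduct.inl (F x), fun g hg => ?_⟩
      have h3 : g • x = x := by
        rcases hfix ⟨g, hg⟩ with h | h
        · exact h.1
        · exact h.1.trans hxy.symm
      rw [hconj, hφ g x, h3]
    · refine ⟨SemidirectProduct.inl ((bb π x y)⁻¹ * F x), fun g hg => ?_⟩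
      rw [hconj, hφ g x, map_mul, map_inv, hAb]
      rcases hfix ⟨g, hg⟩ with ⟨h3, h4⟩ | ⟨h3, h4⟩
      · have h3' : g • x = x := h3
        have h4' : g • y = y := h4
        rw [h3', h4']
        congr 1
        group
      · have h3' : g • x = y := h3
        have h4' : g • y = x := h4
        rw [h3', h4', hF x y hxy]
        congr 1
        group

end tgt

end Q209.LR2
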